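import Pool.Agent.H3.RB.Stm

/-! Part BDT of the project RB (helper3). -/

set_option autoImplicit false
set_option linter.all false

open scoped ENNReal Topology
open MeasureTheory Filter

namespace Pool.Agent.H26.RB

open Pool.Agent.H3.RB

theorem Dp_self {d : ℕ} (p : Sph d) : Dp p p = 0 := by
  unfold Dp
  rw [sub_self, norm_zero]
  exact min_eq_left (norm_nonneg _)

theorem Dp_comm {d : ℕ} (p q : Sph d) : Dp p q = Dp q p := by
  unfold Dp
  rw [norm_sub_rev, add_comm (p : EE d) q]

theorem Dp_triangle {d : ℕ} (p q r : Sph d) : Dp p r ≤ Dp p q + Dp q r := by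
  have h1 : ‖(p : EE d) - r‖ ≤ ‖(p : EE d) - q‖ + ‖(q : EE d) - r‖ := by
    have := norm_add_le ((p : EE d) - q) ((q : EE d) - r)
    simpa using this
  have h2 : ‖(p : EE d) - r‖ ≤ ‖(p : EE d) + q‖ + ‖(q : EE d) + r‖ := by
    have := norm_sub_le ((p : EE d) + q) ((q : EE d) + r)
    have e : (p : EE d) + q - (q + r) = p - r := by abel
    rwa [e] at this
  have h3 : ‖(p : EE d) + r‖ ≤ ‖(p : EE d) - q‖ + ‖(q : EE d) + r‖ := by
    have := norm_add_le ((p : EE d) - q) ((q : EE d) + r)
    have e : (p : EE d) - q + (q + r) = p + r := by abel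
    rwa [e] at this
  have h4 : ‖(p : EE d) + r‖ ≤ ‖(p : EE d) + q‖ + ‖(q : EE d) - r‖ := by
    have := norm_sub_le ((p : EE d) + q) ((q : EE d) - r)
    have e : (p : EE d) + q - (q - r) = p + r := by abel
    rwa [e] at this
  unfold Dp
  rcases min_choice ‖(p : EE d) - q‖ ‖(p : EE d) + q‖ with a | a <;>
    rcases min_choice ‖(q : EE d) - r‖ ‖(q : EE d) + r‖ with b | b <;> rw [a, b]
  · exact (min_le_left _ _).trans h1
  · exact (min_le_right _ _).trans h3
  · exact (min_le_right _ _).trans h4
  · exact (min_le_left _ _).trans h2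

theorem t_BDT : S_BDT := by
  classical
  intro hISO d κ C b η m z Q hd hκ hb hη hη8 hcells n M x τ v ρ hcol hτM hτv hρ hwin
  set S : Finset (Fin m) := Finset.univ.filter (fun k => ∀ i, x i ∉ Q k) with hS
  have hSmem : ∀ k, k ∈ S ↔ ∀ i, x i ∉ Q k := by intro k; simp [hS]
  set b' : ℝ := (1 - 4 * η) * b with hb'
  have hb'b : b' ≤ b := by rw [hb']; nlinarith
  have hsb : 0 < η * b := mul_pos hη hb
  have hcell : 0 < κ * (η * b) ^ d := mul_pos hκ (pow_pos hsb d)
  -- windows are small
  have hcardT : ∀ i ∈ S, ∀ T : Finset (Fin m), T ⊆ S →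
      (∀ j ∈ T, Dp (z i) (z j) ≤ b * 1000 ^ (M + 1)) → T.card ≤ M := by
    intro i _ T hT hD
    have h1 := hwin i T (fun k hk => by rw [mul_comm]; exact hD k hk)
      (fun k hk => (hSmem k).mp (hT hk))
    have h2 : unif d (⋃ k ∈ T, Q k) = ∑ k ∈ T, unif d (Q k) := by
      apply measure_biUnion_finset
      · intro j _ k _ hjk
        exact hcells.disj j k hjk
      · intro j _
        exact hcells.meas j
    have h3 : (T.card : ℝ≥0∞) * ENNReal.ofReal (κ * (η * b) ^ d) ≤ ∑ k ∈ T, unif d (Q k) := by
      rw [← nsmul_eq_mul]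
      exact Finset.card_nsmul_le_sum _ _ _ (fun k _ => hcells.big k)
    rw [← h2] at h3
    have h4 := h3.trans h1
    have h5 : (T.card : ℝ≥0∞) * ENNReal.ofReal (κ * (η * b) ^ d) =
        ENNReal.ofReal (T.card * (κ * (η * b) ^ d)) := by
      rw [ENNReal.ofReal_mul (Nat.cast_nonneg _), ENNReal.ofReal_natCast]
    rw [h5] at h4
    have h6 : (T.card : ℝ) * (κ * (η * b) ^ d) ≤ M * (κ * (η * b) ^ d) := by
      have h7 := h4.trans (ENNReal.ofReal_le_ofReal hτM)
      rwa [ENNReal.ofReal_le_ofReal_iff (by positivity)] at h7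
    have h8 := le_of_mul_le_mul_right h6 hcell
    exact_mod_cast h8
  obtain ⟨Cc, k, hCS, hkM, hcov, hsep⟩ := hISO (Fin m) (fun i j => Dp (z i) (z j)) S M b hb
    (fun i => Dp_self _) (fun i j => Dp_comm _ _) (fun i j l => Dp_triangle _ _ _) hcardT
  set e := Cc.orderIsoOfFin rfl with he
  have heC : ∀ i, ((e i : Cc) : Fin m) ∈ Cc := fun i => (e i).2
  have hpow : ∀ i ∈ Cc, (1000 : ℝ) ^ k i ≤ 1000 ^ M := fun i hi =>
    pow_le_pow_right₀ (by norm_num) (hkM i hi)
  have hpow1 : ∀ j : ℕ, (1 : ℝ) ≤ 1000 ^ j := fun j => one_le_pow₀ (by norm_num)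
  refine ⟨Cc.card, fun i => z (e i), fun i => 2 * 1000 ^ k (e i) * b, ⋃ j ∈ S, Q j, ?_, ?_⟩
  · refine ⟨?_, ?_, ?_, ?_, ?_⟩
    · exact Finset.measurableSet_biUnion _ (fun j _ => hcells.meas j)
    · -- colouring
      obtain ⟨c, hc⟩ := hcol
      have hpick : ∀ p : Sph d, p ∈ (⋃ j ∈ S, Q j)ᶜ → ∃ i : Fin n, ‖(p : EE d) - x i‖ < 2 * (η * b) := by
        intro p hp
        obtain ⟨j, hj⟩ := hcells.cov p
        have hjS : j ∉ S := by
          intro h
          apply hp
          rw [Set.mem_iUnion₂]
          exact ⟨j, h, hj⟩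
        rw [hSmem] at hjS
        push Not at hjS
        obtain ⟨i, hi⟩ := hjS
        refine ⟨i, ?_⟩
        have h1 := hcells.small j p hj
        have h2 := hcells.small j (x i) hi
        have h3 := norm_sub_le ((p : EE d) - z j) ((x i : EE d) - z j)
        have e1 : (p : EE d) - z j - (x i - z j) = p - x i := by abel
        rw [e1] at h3
        linarith
      refine ⟨fun p => if h : p ∈ (⋃ j ∈ S, Q j)ᶜ then c (hpick p h).choose else 0, ?_⟩
      intro p hp q hq hpq
      beta_reduce
      rw [dif_pos hp, dif_pos hq]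
      apply hc
      have h1 := (hpick p hp).choose_spec
      have h2 := (hpick q hq).choose_spec
      set i := (hpick p hp).choose
      set j := (hpick q hq).choose
      have h3 : (x i : EE d) + x j = (p + q) - ((p : EE d) - x i) - ((q : EE d) - x j) := by abel
      rw [h3]
      calc ‖(p : EE d) + q - (p - x i) - (q - x j)‖
          ≤ ‖(p : EE d) + q - (p - x i)‖ + ‖(q : EE d) - x j‖ := norm_sub_le _ _
        _ ≤ ‖(p : EE d) + q‖ + ‖(p : EE d) - x i‖ + ‖(q : EE d) - x j‖ := by
            gcongr; exact norm_sub_le _ _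
        _ < b := by rw [hb'] at hpq; linarith
    · intro i
      have h1 := hpow1 (k (e i))
      have h2 := hpow (e i) (heC i)
      constructor
      · nlinarith
      · refine le_trans ?_ hρ
        have : 2 * 1000 ^ k (e i) * b ≤ 2 * 1000 ^ M * b := by
          have := hpow (e i) (heC i)
          gcongr
        exact this
    · intro i j hij
      have hne : ((e i : Cc) : Fin m) ≠ e j := by
        intro h
        exact hij (e.injective (Subtype.ext h))
      have h1 := hsep _ (heC i) _ (heC j) hne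
      have h2 := hsep _ (heC j) _ (heC i) hne.symm
      beta_reduce at h1 h2
      rw [Dp_comm] at h2
      rw [pow_succ] at h1 h2
      have h3 : 50 * (2 * 1000 ^ k (e i) * b + 2 * 1000 ^ k (e j) * b) < Dp (z (e i)) (z (e j)) := by
        have p1 : 0 < (1000 : ℝ) ^ k (e i) * b := by positivity
        have p2 : 0 < (1000 : ℝ) ^ k (e j) * b := by positivity
        rcases le_total ((1000 : ℝ) ^ k (e i) * b) (1000 ^ k (e j) * b) with hle | hle
        · nlinarith
        · nlinarith
      exact ⟨h3.trans_le (min_le_left _ _), h3.trans_le (min_le_right _ _)⟩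
    · intro p hp
      rw [Set.mem_iUnion₂] at hp
      obtain ⟨j, hjS, hpj⟩ := hp
      obtain ⟨i, hiC, hD⟩ := hcov j hjS
      beta_reduce at hD
      refine ⟨e.symm ⟨i, hiC⟩, ?_⟩
      have h1 := hcells.small j p hpj
      have hp1 := hpow1 (k i)
      have hη' : η * b < 1000 ^ k i * b := by nlinarith
      show _ ∨ _
      rw [OrderIso.apply_symm_apply]
      rcases le_total ‖(z i : EE d) - z j‖ ‖(z i : EE d) + z j‖ with h | h
      · left
        have h2 : ‖(z i : EE d) - z j‖ ≤ b * 1000 ^ k i := by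
          unfold Dp at hD; rwa [min_eq_left h] at hD
        have h3 := norm_sub_le ((p : EE d) - z j) ((z i : EE d) - z j)
        have e1 : (p : EE d) - z j - (z i - z j) = p - z i := by abel
        rw [e1] at h3
        beta_reduce
        linarith
      · right
        have h2 : ‖(z i : EE d) + z j‖ ≤ b * 1000 ^ k i := by
          unfold Dp at hD; rwa [min_eq_right h] at hD
        have h3 := norm_add_le ((p : EE d) - z j) ((z i : EE d) + z j)
        have e1 : (p : EE d) - z j + (z i + z j) = p + z i := by abel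
        rw [e1] at h3
        beta_reduce
        linarith
  · intro i
    set T : Finset (Fin m) := S.filter (fun j => ∃ p ∈ Q j, p ∈ DC (z (e i)) (2 * 1000 ^ k (e i) * b))
      with hT
    have hsub : (⋃ j ∈ S, Q j) ∩ DC (z (e i)) (2 * 1000 ^ k (e i) * b) ⊆ ⋃ j ∈ T, Q j := by
      rintro p ⟨hp, hpD⟩
      rw [Set.mem_iUnion₂] at hp ⊢
      obtain ⟨j, hjS, hpj⟩ := hp
      exact ⟨j, by rw [hT, Finset.mem_filter]; exact ⟨hjS, p, hpj, hpD⟩, hpj⟩
    refine (measure_mono hsub).trans ?_
    have h1 := hwin (e i) T ?_ ?_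
    · exact h1.trans (ENNReal.ofReal_le_ofReal hτv)
    · intro j hj
      rw [hT, Finset.mem_filter] at hj
      obtain ⟨hjS, p, hpj, hpD⟩ := hj
      have h2 := hcells.small j p hpj
      have h3 : Dp (z (e i)) (z j) ≤ 2 * 1000 ^ k (e i) * b + η * b := by
        rcases hpD with h | h
        · refine (min_le_left _ _).trans ?_
          have h4 := norm_sub_le ((p : EE d) - z j) ((p : EE d) - z (e i))
          have e1 : (p : EE d) - z j - (p - z (e i)) = z (e i) - z j := by abel
          rw [e1] at h4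
          linarith
        · refine (min_le_right _ _).trans ?_
          have h4 := norm_sub_le ((p : EE d) + z (e i)) ((p : EE d) - z j)
          have e1 : (p : EE d) + z (e i) - (p - z j) = z (e i) + z j := by abel
          rw [e1] at h4
          linarith
      have h5 := hpow (e i) (heC i)
      have h6 := hpow1 M
      rw [pow_succ]
      have h7 : (1000 : ℝ) ^ k (e i) * b ≤ 1000 ^ M * b := by
          have := hpow (e i) (heC i)
          gcongr
      have h8 : η * b ≤ 1000 ^ M * b := by nlinarith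
      nlinarith
    · intro j hj
      rw [hT, Finset.mem_filter] at hj
      exact (hSmem j).mp hj.1

end Pool.Agent.H26.RB
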