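import Pool.Agent.H3.RB.Stm

/-! Part CEL of the project RB (helper3). -/

set_option autoImplicit false
set_option linter.all false

open scoped ENNReal Topology
open MeasureTheory Filter

namespace Pool.Agent.H26.RB

open Pool.Agent.H3.RB

/-- the points at distance `≥ s` -/
def Sepd {d : ℕ} (s : ℝ) (Z : Finset (Sph d)) : Prop :=
  ∀ p ∈ Z, ∀ q ∈ Z, p ≠ q → s ≤ ‖(p : EE d) - q‖

theorem exists_max_sep {d : ℕ} (s B : ℝ) (hB : ∀ Z : Finset (Sph d), Sepd s Z → (Z.card : ℝ) ≤ B) :
    ∃ Z : Finset (Sph d), Sepd s Z ∧ ∀ p : Sph d, ∃ z ∈ Z, ‖(p : EE d) - z‖ < s ∨ p = z := by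
  classical
  have hex : ∃ n : ℕ, (∃ Z : Finset (Sph d), Sepd s Z ∧ Z.card = n) ∧
      ∀ n', (∃ Z : Finset (Sph d), Sepd s Z ∧ Z.card = n') → n' ≤ n := by
    have hbdd : ∀ n', (∃ Z : Finset (Sph d), Sepd s Z ∧ Z.card = n') → n' ≤ ⌊B⌋₊ := by
      rintro n' ⟨Z, hZ, rfl⟩
      exact Nat.le_floor (hB Z hZ)
    have h0 : ∃ Z : Finset (Sph d), Sepd s Z ∧ Z.card = 0 := ⟨∅, by intro p hp; simp at hp, rfl⟩
    refine ⟨Nat.findGreatest (fun n => ∃ Z : Finset (Sph d), Sepd s Z ∧ Z.card = n) ⌊B⌋₊, ?_, ?_⟩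
    · exact Nat.findGreatest_spec (P := fun n => ∃ Z : Finset (Sph d), Sepd s Z ∧ Z.card = n)
        (Nat.zero_le _) h0
    · intro n' hn'
      exact Nat.le_findGreatest (hbdd n' hn') hn'
  obtain ⟨n, ⟨Z, hZ, hcard⟩, hmax⟩ := hex
  refine ⟨Z, hZ, fun p => ?_⟩
  by_contra hno
  push Not at hno
  have hpZ : p ∉ Z := fun h => (hno p h).2 rfl
  have h1 : Sepd s (insert p Z) := by
    intro a ha b hb hab
    rcases Finset.mem_insert.mp ha with ha | ha
    · rcases Finset.mem_insert.mp hb with hb | hb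
      · exact absurd (ha.trans hb.symm) hab
      · rw [ha]; exact (hno b hb).1
    · rcases Finset.mem_insert.mp hb with hb | hb
      · rw [hb, norm_sub_rev]; exact (hno a ha).1
      · exact hZ a ha b hb hab
  have h2 := hmax _ ⟨_, h1, rfl⟩
  rw [Finset.card_insert_of_notMem hpZ] at h2
  omega

theorem t_CEL : S_CEL := by
  classical
  intro hCAP hPCK d hd
  obtain ⟨κ, C, hκ, hC, hcap, hnum⟩ := hCAP d hd
  refine ⟨κ / 2 ^ d, C, by positivity, hC, ?_⟩
  intro s hs hs1
  obtain ⟨Z, hZ, hZmax⟩ := exists_max_sep s (C / s ^ d) (fun Z hZ => hnum s Z hs hs1 hZ)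
  set e := Z.equivFin with he
  let z : Fin Z.card → Sph d := fun j => (e.symm j : Sph d)
  have hzZ : ∀ j, z j ∈ Z := fun j => (e.symm j).2
  have hzinj : Function.Injective z := by
    intro j k h
    exact e.symm.injective (Subtype.ext h)
  have hzsep : ∀ j k, j ≠ k → s ≤ ‖(z j : EE d) - z k‖ := by
    intro j k hjk
    exact hZ _ (hzZ j) _ (hzZ k) (fun h => hjk (hzinj h))
  have hzsurj : ∀ w ∈ Z, ∃ j, z j = w := by
    intro w hw
    exact ⟨e ⟨w, hw⟩, by show ((e.symm (e ⟨w, hw⟩) : Z) : Sph d) = w; rw [Equiv.symm_apply_apply]⟩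
  let Q : Fin Z.card → Set (Sph d) := fun j => {p | ∀ k, ‖(p : EE d) - z j‖ ≤ ‖(p : EE d) - z k‖ ∧
    (k < j → ‖(p : EE d) - z j‖ < ‖(p : EE d) - z k‖)}
  have hcont : ∀ k, Continuous (fun p : Sph d => ‖(p : EE d) - z k‖) := by
    intro k
    exact (continuous_subtype_val.sub continuous_const).norm
  refine ⟨Z.card, z, Q, ?_, ?_, ?_, ?_, ?_, ?_, ?_⟩
  · -- measurable
    intro j
    have : Q j = ⋂ k, ({p : Sph d | ‖(p : EE d) - z j‖ ≤ ‖(p : EE d) - z k‖} ∩
        {p : Sph d | k < j → ‖(p : EE d) - z j‖ < ‖(p : EE d) - z k‖}) := by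
      ext p
      simp only [Set.mem_iInter, Set.mem_inter_iff, Set.mem_setOf_eq, Q]
    rw [this]
    apply MeasurableSet.iInter
    intro k
    apply MeasurableSet.inter
    · exact measurableSet_le (hcont j).measurable (hcont k).measurable
    · by_cases hkj : k < j
      · have : {p : Sph d | k < j → ‖(p : EE d) - z j‖ < ‖(p : EE d) - z k‖} =
            {p : Sph d | ‖(p : EE d) - z j‖ < ‖(p : EE d) - z k‖} := by
          ext p; simp [hkj]
        rw [this]
        exact measurableSet_lt (hcont j).measurable (hcont k).measurable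
      · have : {p : Sph d | k < j → ‖(p : EE d) - z j‖ < ‖(p : EE d) - z k‖} = Set.univ := by
          ext p; simp [hkj]
        rw [this]
        exact MeasurableSet.univ
  · intro j k hjk
    rw [Set.disjoint_left]
    intro p hpj hpk
    rcases lt_or_gt_of_ne hjk with h | h
    · have h1 := (hpk j).2 h
      have h2 := (hpj k).1
      linarith
    · have h1 := (hpj k).2 h
      have h2 := (hpk j).1
      linarith
  · intro p
    have hne : (Finset.univ : Finset (Fin Z.card)).Nonempty := by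
      obtain ⟨w, hw, -⟩ := hZmax p
      obtain ⟨j, -⟩ := hzsurj w hw
      exact ⟨j, Finset.mem_univ _⟩
    obtain ⟨j0, -, hj0⟩ := Finset.exists_min_image Finset.univ (fun j => ‖(p : EE d) - z j‖) hne
    set A := Finset.univ.filter (fun j => ‖(p : EE d) - z j‖ = ‖(p : EE d) - z j0‖) with hA
    have hAne : A.Nonempty := ⟨j0, by rw [hA, Finset.mem_filter]; exact ⟨Finset.mem_univ _, rfl⟩⟩
    have hAmem : ∀ j, j ∈ A → ‖(p : EE d) - z j‖ = ‖(p : EE d) - z j0‖ := by
      intro j hj
      rw [hA, Finset.mem_filter] at hj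
      exact hj.2
    have h2 := hAmem _ (A.min'_mem hAne)
    refine ⟨A.min' hAne, fun k => ?_⟩
    have h1 := hj0 k (Finset.mem_univ _)
    refine ⟨by rw [h2]; exact h1, fun hk => ?_⟩
    rw [h2]
    apply lt_of_le_of_ne h1
    intro heq
    have : k ∈ A := by rw [hA, Finset.mem_filter]; exact ⟨Finset.mem_univ _, heq.symm⟩
    exact absurd (A.min'_le k this) (not_le.mpr hk)
  · intro j p hp
    obtain ⟨w, hw, h⟩ := hZmax p
    obtain ⟨k, hk⟩ := hzsurj w hw
    refine lt_of_le_of_lt (hp k).1 ?_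
    rw [hk]
    rcases h with h | h
    · exact h
    · rw [h, sub_self, norm_zero]; exact hs
  · intro j
    have h1 := hcap (z j) (s / 2) (by linarith) (by linarith)
    have e1 : κ / 2 ^ d * s ^ d = κ * (s / 2) ^ d := by rw [div_pow]; ring
    rw [e1]
    refine h1.trans (measure_mono ?_)
    intro p hp
    have hp' : ‖(p : EE d) - z j‖ < s / 2 := hp
    have key : ∀ k, k ≠ j → ‖(p : EE d) - z j‖ < ‖(p : EE d) - z k‖ := by
      intro k hk
      have h2 := hzsep k j hk
      have h3 := norm_sub_le ((p : EE d) - z j) ((p : EE d) - z k)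
      have e2 : (p : EE d) - z j - (p - z k) = z k - z j := by abel
      rw [e2] at h3
      linarith
    intro k
    by_cases hk : k = j
    · subst hk
      exact ⟨le_rfl, fun h => absurd h (lt_irrefl _)⟩
    · exact ⟨(key k hk).le, fun _ => key k hk⟩
  · exact hnum s Z hs hs1 hZ
  · intro R j hR
    have hone : ∀ w : EE d, ((Finset.univ.filter fun k => ‖(z k : EE d) - w‖ ≤ R).card : ℝ) ≤
        (1 + 2 * R / s) ^ (d + 1) := by
      intro w
      have h1 := hPCK d s R w ((Finset.univ.filter fun k => ‖(z k : EE d) - w‖ ≤ R).image z) hs hR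
        (by
          intro p hp q hq hpq
          rw [Finset.mem_image] at hp hq
          obtain ⟨k, -, rfl⟩ := hp
          obtain ⟨l, -, rfl⟩ := hq
          exact hzsep k l (fun h => hpq (by rw [h])))
        (by
          intro p hp
          rw [Finset.mem_image] at hp
          obtain ⟨k, hk, rfl⟩ := hp
          rw [Finset.mem_filter] at hk
          exact hk.2)
      rwa [Finset.card_image_of_injective _ hzinj] at h1
    have hsub : (Finset.univ.filter fun k => Dp (z j) (z k) ≤ R) ⊆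
        (Finset.univ.filter fun k => ‖(z k : EE d) - z j‖ ≤ R) ∪
        (Finset.univ.filter fun k => ‖(z k : EE d) - (-(z j : EE d))‖ ≤ R) := by
      intro k hk
      rw [Finset.mem_filter] at hk
      rw [Finset.mem_union, Finset.mem_filter, Finset.mem_filter]
      rcases min_le_iff.mp hk.2 with h | h
      · left; exact ⟨Finset.mem_univ _, by rw [norm_sub_rev]; exact h⟩
      · right; exact ⟨Finset.mem_univ _, by rw [sub_neg_eq_add, add_comm (z k : EE d)]; exact h⟩
    have h2 := (Finset.card_le_card hsub).trans (Finset.card_union_le _ _)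
    have h3 := hone (z j)
    have h4 := hone (-(z j : EE d))
    have h5 : ((Finset.univ.filter fun k => Dp (z j) (z k) ≤ R).card : ℝ) ≤
        ((Finset.univ.filter fun k => ‖(z k : EE d) - z j‖ ≤ R).card : ℝ) +
        ((Finset.univ.filter fun k => ‖(z k : EE d) - (-(z j : EE d))‖ ≤ R).card : ℝ) := by
      exact_mod_cast h2
    linarith

end Pool.Agent.H26.RB
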