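import Pool.Agent.H3.RB.Stm

/-! Part DIS of the project RB (helper3). -/

set_option autoImplicit false
set_option linter.all false

open scoped ENNReal Topology
open MeasureTheory Filter

namespace Pool.Agent.H26.RB

open Pool.Agent.H3.RB

theorem sph_norm {d : ℕ} (p : Sph d) : ‖(p : EE d)‖ = 1 := by
  have := p.2
  rwa [mem_sphere_zero_iff_norm] at this

theorem dis_aux {d : ℕ} (x q : Sph d) (r : ℝ) (hr : 0 < r) (hr1 : r ≤ 1 / 10) (hq : q ∈ DC x r) :
    199 / 200 ≤ |inner ℝ (x : EE d) (q : EE d)| ∧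
      ‖(q : EE d) - inner ℝ (x : EE d) (q : EE d) • (x : EE d)‖ ≤ r := by
  have hx := sph_norm x
  have hqn := sph_norm q
  set c : ℝ := inner ℝ (x : EE d) (q : EE d) with hc
  have hc' : inner ℝ (q : EE d) (x : EE d) = c := by rw [real_inner_comm]
  have h1 : ‖(q : EE d) - c • (x : EE d)‖ ^ 2 = 1 - c ^ 2 := by
    rw [norm_sub_sq_real, hqn, norm_smul, hx, inner_smul_right, hc', Real.norm_eq_abs, mul_one,
      sq_abs]
    ring
  have h2 : ∃ ε : ℝ, (ε = 1 ∨ ε = -1) ∧ 2 - 2 * (ε * c) < r ^ 2 := by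
    rcases hq with h | h
    · refine ⟨1, Or.inl rfl, ?_⟩
      have h3 := norm_sub_sq_real (q : EE d) (x : EE d)
      rw [hqn, hx, hc'] at h3
      have h4 : ‖(q : EE d) - x‖ ^ 2 < r ^ 2 := by
        apply pow_lt_pow_left₀ h (norm_nonneg _) two_ne_zero
      rw [h3] at h4
      linarith
    · refine ⟨-1, Or.inr rfl, ?_⟩
      have h3 := norm_add_sq_real (q : EE d) (x : EE d)
      rw [hqn, hx, hc'] at h3
      have h4 : ‖(q : EE d) + x‖ ^ 2 < r ^ 2 := by
        apply pow_lt_pow_left₀ h (norm_nonneg _) two_ne_zero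
      rw [h3] at h4
      linarith
  obtain ⟨ε, hε, h3⟩ := h2
  have hr2 : r ^ 2 ≤ 1 / 100 := by nlinarith
  have hεc : ε * c ≤ |c| := by
    rcases hε with rfl | rfl
    · rw [one_mul]; exact le_abs_self c
    · rw [neg_one_mul]; exact neg_le_abs c
  have hε2 : ε ^ 2 = 1 := by rcases hε with rfl | rfl <;> norm_num
  constructor
  · linarith
  · have h4 : ‖(q : EE d) - c • (x : EE d)‖ ^ 2 ≤ r ^ 2 := by
      rw [h1]
      have : (ε * c) ^ 2 = c ^ 2 := by rw [mul_pow, hε2, one_mul]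
      nlinarith [sq_nonneg (1 - ε * c)]
    exact le_of_sq_le_sq h4 hr.le |> fun h => h
where
  le_of_sq_le_sq {a b : ℝ} (h : a ^ 2 ≤ b ^ 2) (hb : 0 ≤ b) : a ≤ b := by
    exact le_of_sq_le_sq' h hb
  le_of_sq_le_sq' {a b : ℝ} (h : a ^ 2 ≤ b ^ 2) (hb : 0 ≤ b) : a ≤ b := by
    nlinarith [abs_le_of_sq_le_sq h hb, le_abs_self a]

theorem t_DIS : S_DIS := by
  intro d x lam r y y' T hlam hr hr1 hy hy' hT hyy
  rw [Set.disjoint_left]
  rintro p ⟨q, hq, t, ht, h1⟩ ⟨q', hq', t', ht', h2⟩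
  have hx := sph_norm x
  set a : ℝ := inner ℝ (x : EE d) (p : EE d) with ha
  unfold AA at h1 h2
  rw [← ha] at h1 h2
  obtain ⟨k1, k2⟩ := dis_aux x q r hr hr1 (hT hq)
  obtain ⟨k1', k2'⟩ := dis_aux x q' r hr hr1 (hT hq')
  set c : ℝ := inner ℝ (x : EE d) (q : EE d) with hc
  set c' : ℝ := inner ℝ (x : EE d) (q' : EE d) with hc'
  have hxx : inner ℝ (x : EE d) (x : EE d) = 1 := by
    rw [real_inner_self_eq_norm_sq, hx, one_pow]
  have e1 : a = t * c := by
    have := congrArg (fun v => inner ℝ (x : EE d) v) h1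
    simp only [inner_add_right, inner_smul_right, inner_sub_right, hxx, hy, ← ha, ← hc] at this
    linarith
  have e2 : a = t' * c' := by
    have := congrArg (fun v => inner ℝ (x : EE d) v) h2
    simp only [inner_add_right, inner_smul_right, inner_sub_right, hxx, hy', ← ha, ← hc'] at this
    linarith
  have h3 : (lam * a) • (y' - y) = t • ((q : EE d) - c • (x : EE d)) - t' • ((q' : EE d) - c' • (x : EE d)) := by
    have h4 : t • ((q : EE d) - c • (x : EE d)) = t • (q : EE d) - a • (x : EE d) := by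
      rw [smul_sub, smul_smul, ← e1]
    have h5 : t' • ((q' : EE d) - c' • (x : EE d)) = t' • (q' : EE d) - a • (x : EE d) := by
      rw [smul_sub, smul_smul, ← e2]
    rw [h4, h5, ← h1, ← h2]
    simp only [smul_sub, smul_smul]
    rw [mul_comm lam a]
    abel
  have h4 : lam * |a| * ‖y - y'‖ ≤ t * r + t' * r := by
    have h5 := congrArg norm h3
    rw [norm_smul, Real.norm_eq_abs, abs_mul, abs_of_nonneg (by linarith : (0:ℝ) ≤ lam),
      norm_sub_rev] at h5
    rw [h5]
    refine (norm_sub_le _ _).trans ?_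
    rw [norm_smul, norm_smul, Real.norm_eq_abs, Real.norm_eq_abs, abs_of_pos ht, abs_of_pos ht']
    gcongr
  have e3 : |a| = t * |c| := by rw [e1, abs_mul, abs_of_pos ht]
  have e4 : |a| = t' * |c'| := by rw [e2, abs_mul, abs_of_pos ht']
  have hapos : 0 < |a| := by rw [e3]; exact mul_pos ht (by linarith)
  have h6 : t ≤ 200 / 199 * |a| := by rw [e3]; nlinarith
  have h7 : t' ≤ 200 / 199 * |a| := by rw [e4]; nlinarith
  have h8 : 3 * r ≤ lam * ‖y - y'‖ := by
    rw [div_le_iff₀ (by linarith)] at hyy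
    linarith
  have h9 : |a| * (3 * r) ≤ |a| * (lam * ‖y - y'‖) := by
    exact mul_le_mul_of_nonneg_left h8 hapos.le
  have h10 : |a| * (3 * r) ≤ t * r + t' * r := by nlinarith
  have h11 : t * r + t' * r ≤ 400 / 199 * |a| * r := by nlinarith
  have : 0 < |a| * r := mul_pos hapos hr
  nlinarith

end Pool.Agent.H26.RB
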