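import Pool.Agent.H3.RB.Stm

/-! Part ISO of the project RB (helper3). -/

set_option autoImplicit false
set_option linter.all false

open scoped ENNReal Topology
open MeasureTheory Filter

namespace Pool.Agent.H26.RB

open Pool.Agent.H3.RB

theorem t_ISO : S_ISO := by
  classical
  intro ι D S M L hL h0 hsym htri hcard
  -- levels with an empty annulus
  have hlev : ∀ i ∈ S, ∃ k, k ≤ M ∧ ∀ j ∈ S, D i j ≤ L * 1000 ^ (k + 1) → D i j ≤ L * 1000 ^ k := by
    intro i hi
    by_contra hno
    push Not at hno
    set B : ℕ → Finset ι := fun k => S.filter (fun j => D i j ≤ L * 1000 ^ k) with hB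
    have hgrow : ∀ k, k ≤ M + 1 → k + 1 ≤ (B k).card := by
      intro k
      induction k with
      | zero =>
        intro _
        have : i ∈ B 0 := by
          rw [hB, Finset.mem_filter]
          refine ⟨hi, ?_⟩
          rw [h0]; positivity
        exact Finset.card_pos.mpr ⟨i, this⟩
      | succ k ih =>
        intro hk
        have h1 := ih (by omega)
        obtain ⟨j, hj, hj1, hj2⟩ := hno k (by omega)
        have hss : B k ⊂ B (k + 1) := by
          rw [Finset.ssubset_iff_of_subset]
          · refine ⟨j, ?_, ?_⟩
            · rw [hB, Finset.mem_filter]; exact ⟨hj, hj1⟩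
            · rw [hB, Finset.mem_filter]
              rintro ⟨_, h⟩
              exact absurd h (not_le.mpr hj2)
          · intro j hj
            rw [hB, Finset.mem_filter] at hj ⊢
            refine ⟨hj.1, hj.2.trans ?_⟩
            apply mul_le_mul_of_nonneg_left _ hL.le
            exact pow_le_pow_right₀ (by norm_num) (Nat.le_succ k)
        have := Finset.card_lt_card hss
        omega
    have h1 := hgrow (M + 1) le_rfl
    have h2 := hcard i hi (B (M + 1)) (Finset.filter_subset _ _) (by
      intro j hj
      rw [hB, Finset.mem_filter] at hj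
      exact hj.2)
    omega
  choose! k hkM hk using hlev
  -- greedy choice
  have key : ∀ n : ℕ, ∀ A : Finset ι, A ⊆ S → A.card = n → ∃ C : Finset ι, C ⊆ A ∧
      (∀ j ∈ A, ∃ i ∈ C, D i j ≤ L * 1000 ^ k i) ∧
      ∀ i ∈ C, ∀ j ∈ C, i ≠ j → L * 1000 ^ (k i + 1) < D i j := by
    intro n
    induction n using Nat.strong_induction_on with
    | _ n ih =>
      intro A hA hn
      rcases A.eq_empty_or_nonempty with rfl | hne
      · exact ⟨∅, Finset.Subset.refl _, by simp, by simp⟩
      obtain ⟨i, hi, hmax⟩ := Finset.exists_max_image A k hne
      set A' := A.filter (fun j => L * 1000 ^ k i < D i j) with hA'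
      have hiA' : i ∉ A' := by
        rw [hA', Finset.mem_filter]
        rintro ⟨_, h⟩
        rw [h0] at h
        have : (0 : ℝ) < L * 1000 ^ k i := by positivity
        linarith
      have hlt : A'.card < n := by
        rw [← hn]
        apply Finset.card_lt_card
        rw [Finset.ssubset_iff_of_subset (Finset.filter_subset _ _)]
        exact ⟨i, hi, hiA'⟩
      obtain ⟨C, hC, hcov, hsep⟩ := ih _ hlt A' ((Finset.filter_subset _ _).trans hA) rfl
      refine ⟨insert i C, ?_, ?_, ?_⟩
      · intro j hj
        rcases Finset.mem_insert.mp hj with rfl | hj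
        · exact hi
        · exact Finset.filter_subset _ _ (hC hj)
      · intro j hj
        by_cases hjd : L * 1000 ^ k i < D i j
        · obtain ⟨i', hi', h⟩ := hcov j (by rw [hA', Finset.mem_filter]; exact ⟨hj, hjd⟩)
          exact ⟨i', Finset.mem_insert_of_mem hi', h⟩
        · exact ⟨i, Finset.mem_insert_self _ _, not_lt.mp hjd⟩
      · -- separation
        have hfar : ∀ j ∈ C, L * 1000 ^ (k i + 1) < D i j := by
          intro j hj
          have h1 := hC hj
          rw [hA', Finset.mem_filter] at h1
          by_contra hle
          push Not at hle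
          have := hk i (hA hi) j (hA h1.1) hle
          linarith [h1.2]
        intro a ha b hb hab
        rcases Finset.mem_insert.mp ha with ha' | ha'
        · rcases Finset.mem_insert.mp hb with hb' | hb'
          · exact absurd (ha'.trans hb'.symm) hab
          · rw [ha']; exact hfar b hb'
        · rcases Finset.mem_insert.mp hb with hb' | hb'
          · rw [hsym, hb']
            refine lt_of_le_of_lt ?_ (hfar a ha')
            apply mul_le_mul_of_nonneg_left _ hL.le
            apply pow_le_pow_right₀ (by norm_num)
            have h1 := hC ha'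
            rw [hA', Finset.mem_filter] at h1
            have := hmax a h1.1
            omega
          · exact hsep a ha' b hb' hab
  obtain ⟨C, hC, hcov, hsep⟩ := key S.card S (Finset.Subset.refl _) rfl
  exact ⟨C, k, hC, fun i hi => hkM i (hC hi), hcov, hsep⟩

end Pool.Agent.H26.RB
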