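import Pool.Agent.H3.RB.Stm

/-! Part POS of the project RB (helper3). -/

set_option autoImplicit false
set_option linter.all false

open scoped ENNReal Topology
open MeasureTheory Filter

namespace Pool.Agent.H26.RB

open Pool.Agent.H3.RB

theorem t_POS : S_POS := by
  classical
  intro hLS hCAP d hd
  obtain ⟨κ, C, hκ, hC, hcap, -⟩ := hCAP d hd
  refine ⟨κ / 4 ^ d, 1, by positivity, one_pos, ?_⟩
  intro b v hb hb1 hstr
  by_contra hv
  push Not at hv
  obtain ⟨m, x, r, H, hH, hmeas⟩ := hstr
  have hpick : ∀ p : Sph d, ∃ q : Sph d, ‖(q : EE d) - p‖ < b / 4 ∧ q ∉ H := by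
    intro p
    by_contra hno
    push Not at hno
    have hpH : p ∈ H := hno p (by rw [sub_self, norm_zero]; linarith)
    obtain ⟨i, hi⟩ := hH.cov p hpH
    have hri := hH.rad i
    have hsub : {q : Sph d | ‖(q : EE d) - p‖ < b / 4} ⊆ H ∩ DC (x i) (r i) := by
      intro q hq
      have hq' : ‖(q : EE d) - p‖ < b / 4 := hq
      have hqH := hno q hq'
      refine ⟨hqH, ?_⟩
      obtain ⟨j, hj⟩ := hH.cov q hqH
      by_cases hij : i = j
      · rw [hij]; exact hj
      · exfalso
        obtain ⟨s1, s2⟩ := hH.sep i j hij
        have hrj := hH.rad j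
        rcases hi with a | a <;> rcases hj with c | c
        · have e1 : (x i : EE d) - x j = -((p : EE d) - x i) - ((q : EE d) - p) + ((q : EE d) - x j) := by
            abel
          rw [e1] at s1
          have h1 := norm_add_le (-((p : EE d) - x i) - ((q : EE d) - p)) ((q : EE d) - x j)
          have h2 := norm_sub_le (-((p : EE d) - x i)) ((q : EE d) - p)
          rw [norm_neg] at h2
          linarith [hri.1, hrj.1]
        · have e1 : (x i : EE d) + x j = -((p : EE d) - x i) - ((q : EE d) - p) + ((q : EE d) + x j) := by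
            abel
          rw [e1] at s2
          have h1 := norm_add_le (-((p : EE d) - x i) - ((q : EE d) - p)) ((q : EE d) + x j)
          have h2 := norm_sub_le (-((p : EE d) - x i)) ((q : EE d) - p)
          rw [norm_neg] at h2
          linarith [hri.1, hrj.1]
        · have e1 : (x i : EE d) + x j = ((p : EE d) + x i) + ((q : EE d) - p) - ((q : EE d) - x j) := by
            abel
          rw [e1] at s2
          have h1 := norm_sub_le (((p : EE d) + x i) + ((q : EE d) - p)) ((q : EE d) - x j)
          have h2 := norm_add_le ((p : EE d) + x i) ((q : EE d) - p)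
          linarith [hri.1, hrj.1]
        · have e1 : (x i : EE d) - x j = ((p : EE d) + x i) + ((q : EE d) - p) - ((q : EE d) + x j) := by
            abel
          rw [e1] at s1
          have h1 := norm_sub_le (((p : EE d) + x i) + ((q : EE d) - p)) ((q : EE d) + x j)
          have h2 := norm_add_le ((p : EE d) + x i) ((q : EE d) - p)
          linarith [hri.1, hrj.1]
    have h1 := hcap p (b / 4) (by linarith) (by linarith)
    have h2 := (h1.trans (measure_mono hsub)).trans (hmeas i)
    have h3 : 0 < κ * (b / 4) ^ d := by positivity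
    have h4 : κ * (b / 4) ^ d ≤ v * b ^ d := by
      rcases le_or_gt (v * b ^ d) 0 with h | h
      · rw [ENNReal.ofReal_of_nonpos h, nonpos_iff_eq_zero, ENNReal.ofReal_eq_zero] at h2
        linarith
      · rwa [ENNReal.ofReal_le_ofReal_iff h.le] at h2
    have h5 : κ * (b / 4) ^ d = κ / 4 ^ d * b ^ d := by
      rw [div_pow]; ring
    rw [h5] at h4
    have h6 : κ / 4 ^ d ≤ v := le_of_mul_le_mul_right h4 (by positivity)
    linarith
  choose q hq hqH using hpick
  obtain ⟨c, hc⟩ := hH.col
  apply hLS d (b / 2) hd (by linarith)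
  refine ⟨fun p => c (q p), fun p _ p' _ hpp => ?_⟩
  apply hc (q p) (hqH p) (q p') (hqH p')
  have e1 : (q p : EE d) + q p' = ((p : EE d) + p') + ((q p : EE d) - p) + ((q p' : EE d) - p') := by
    abel
  rw [e1]
  have h1 := norm_add_le (((p : EE d) + p') + ((q p : EE d) - p)) ((q p' : EE d) - p')
  have h2 := norm_add_le ((p : EE d) + p') ((q p : EE d) - p)
  have h3 := hq p
  have h4 := hq p'
  linarith

end Pool.Agent.H26.RB
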